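import Pool.Agent.helper88.RF.SpecW

/-!
# RF, block C, part W: row WIN, residues modulo the cube of an element of prime norm
-/

set_option autoImplicit false

open Finset

namespace Pool.Agent.RF

theorem WIN_norm (k : OO) : k * star k = ((k.norm : ℤ) : OO) := by
  rw [← QuadraticAlgebra.algebraMap_norm_eq_mul_star]
  exact eq_intCast (algebraMap ℤ OO) _

theorem WIN_tr (k : OO) : k + star k = ((2 * k.re + k.im : ℤ) : OO) := by
  ext
  · rw [QuadraticAlgebra.re_intCast, QuadraticAlgebra.re_add, QuadraticAlgebra.re_star, Int.cast_id]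
    ring
  · rw [QuadraticAlgebra.im_intCast, QuadraticAlgebra.im_add, QuadraticAlgebra.im_star]
    ring

theorem WIN_r5 : r5 * r5 = ((5 : ℤ) : OO) := by
  unfold r5
  ext
  · rw [QuadraticAlgebra.re_intCast]
    simp
  · rw [QuadraticAlgebra.im_intCast]
    simp

/-- the norm is odd, or divisible by `4` -/
theorem WIN_par (x y : ℤ) : (∃ c, x * x + 1 * x * y - 1 * y * y = 4 * c) ∨ ∃ c, x * x + 1 * x * y - 1 * y * y = 2 * c + 1 := by
  rcases Int.even_or_odd' x with ⟨a, rfl | rfl⟩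
  · rcases Int.even_or_odd' y with ⟨b, rfl | rfl⟩
    · exact Or.inl ⟨a ^ 2 + a * b - b ^ 2, by ring⟩
    · exact Or.inr ⟨2 * a ^ 2 + 2 * a * b + a - 2 * b ^ 2 - 2 * b - 1, by ring⟩
  · rcases Int.even_or_odd' y with ⟨b, rfl | rfl⟩
    · exact Or.inr ⟨2 * a ^ 2 + 2 * a + 2 * a * b + b - 2 * b ^ 2, by ring⟩
    · exact Or.inr ⟨2 * a ^ 2 + 3 * a + 2 * a * b - b - 2 * b ^ 2, by ring⟩

theorem WIN_proof : WIN_stmt := by
  intro k hp h5
  set N : ℤ := k.norm with hN
  have hNP : Prime N := Int.prime_iff_natAbs_prime.2 hp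
  have hNd : N = k.re * k.re + 1 * k.re * k.im - 1 * k.im * k.im := rfl
  have hkk : k * star k = (N : OO) := WIN_norm k
  have hq2 : N.natAbs ≠ 2 := by
    intro h
    rcases WIN_par k.re k.im with ⟨c, hc⟩ | ⟨c, hc⟩
    · rw [← hNd] at hc
      omega
    · rw [← hNd] at hc
      omega
  have hn5 : ¬ N ∣ 5 := by
    intro h
    have h1 : N.natAbs ∣ 5 := by
      have := Int.natAbs_dvd_natAbs.2 h
      simpa using this
    exact h5 ((Nat.prime_dvd_prime_iff_eq hp (by norm_num)).1 h1)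
  have hn2 : ¬ N ∣ 2 := by
    intro h
    have h1 : N.natAbs ∣ 2 := by
      have := Int.natAbs_dvd_natAbs.2 h
      simpa using this
    exact hq2 ((Nat.prime_dvd_prime_iff_eq hp (by norm_num)).1 h1)
  have hc5 : IsCoprime N 5 := (Prime.coprime_iff_not_dvd hNP).2 hn5
  have hc2 : IsCoprime N 2 := (Prime.coprime_iff_not_dvd hNP).2 hn2
  have hsq : ¬ N * N ∣ N := by
    intro h
    have h1 : N ∣ 1 := by
      have h2 : N * N ∣ N * 1 := by rwa [mul_one]
      exact (mul_dvd_mul_iff_left hNP.ne_zero).1 h2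
    exact hNP.not_dvd_one h1
  have hxy : ¬ (N ∣ k.re ∧ N ∣ k.im) := by
    rintro ⟨⟨a, ha⟩, ⟨b, hb⟩⟩
    apply hsq
    refine ⟨a * a + a * b - b * b, ?_⟩
    have h1 := hNd
    rw [ha, hb] at h1
    linear_combination h1
  have ht : ¬ N ∣ 2 * k.re + k.im := by
    intro h
    have h1 : N ∣ 5 * (k.im * k.im) := by
      have h2 : 5 * (k.im * k.im) = (2 * k.re + k.im) * (2 * k.re + k.im) - N * 4 := by
        rw [hNd]
        ring
      rw [h2]
      exact dvd_sub (h.mul_right _) (dvd_mul_right _ _)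
    have h2 : N ∣ k.im := by
      rcases hNP.dvd_or_dvd h1 with h3 | h3
      · exact absurd h3 hn5
      · rcases hNP.dvd_or_dvd h3 with h4 | h4 <;> exact h4
    have h3 : N ∣ 2 * k.re := by
      have : 2 * k.re = (2 * k.re + k.im) - k.im := by ring
      rw [this]
      exact dvd_sub h h2
    have h4 : N ∣ k.re := by
      rcases hNP.dvd_or_dvd h3 with h5 | h5
      · exact absurd h5 hn2
      · exact h5
    exact hxy ⟨h4, h2⟩
  have hck : IsCoprime k (star k) := by
    obtain ⟨a, b, hab⟩ := (Prime.coprime_iff_not_dvd hNP).2 ht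
    have hab' : (a : OO) * (N : OO) + (b : OO) * ((2 * k.re + k.im : ℤ) : OO) = 1 := by exact_mod_cast congrArg (Int.cast : ℤ → OO) hab
    refine ⟨(a : OO) * star k + (b : OO), (b : OO), ?_⟩
    rw [← hab', ← hkk, ← WIN_tr k]
    ring
  have hstar : star (star k) = k := star_star k
  have hcube : IsCoprime (k ^ 3) (star k ^ 3) := hck.pow
  refine ⟨hck, ?_, ?_, ?_, ?_⟩
  · obtain ⟨a, b, hab⟩ := hc5
    have hab' : (a : OO) * (N : OO) + (b : OO) * ((5 : ℤ) : OO) = 1 := by exact_mod_cast congrArg (Int.cast : ℤ → OO) hab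
    refine ⟨(a : OO) * star k, (b : OO) * r5, ?_⟩
    rw [← hab', ← hkk, ← WIN_r5]
    ring
  · obtain ⟨a, b, hab⟩ := hc2
    have hab' : (a : OO) * (N : OO) + (b : OO) * ((2 : ℤ) : OO) = 1 := by exact_mod_cast congrArg (Int.cast : ℤ → OO) hab
    refine ⟨(a : OO) * star k, (b : OO), ?_⟩
    rw [← hab', ← hkk]
    push_cast
    ring
  · intro n
    have h1 : ((N.natAbs : ℤ) ^ 3 ∣ n) ↔ N ^ 3 ∣ n := by
      rw [← Int.natAbs_dvd_natAbs, ← Int.natAbs_dvd_natAbs (a := N ^ 3), Int.natAbs_pow, Int.natAbs_pow, Int.natAbs_natCast]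
    rw [h1]
    constructor
    · intro h
      have h2 : star k ^ 3 ∣ (n : OO) := by
        obtain ⟨c, hc⟩ := h
        refine ⟨star c, ?_⟩
        have h3 := congrArg star hc
        rw [star_mul, star_pow, star_intCast, mul_comm] at h3
        exact h3
      have h3 : k ^ 3 * star k ^ 3 ∣ (n : OO) := hcube.mul_dvd h h2
      rw [← mul_pow, hkk] at h3
      have h4 : algebraMap ℤ OO (N ^ 3) ∣ algebraMap ℤ OO n := by
        rw [eq_intCast, eq_intCast, Int.cast_pow]
        exact h3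
      exact QuadraticAlgebra.algebraMap_dvd_iff_dvd.1 h4
    · rintro ⟨c, rfl⟩
      refine ⟨star k ^ 3 * (c : OO), ?_⟩
      rw [Int.cast_mul, Int.cast_pow, ← hkk]
      ring
  · intro x
    have hY : ¬ N ∣ (k ^ 3).im := by
      intro h
      have h1 : (k ^ 3).norm = N ^ 3 := by rw [map_pow]
      have h2 : (k ^ 3).norm = (k ^ 3).re * (k ^ 3).re + 1 * (k ^ 3).re * (k ^ 3).im - 1 * (k ^ 3).im * (k ^ 3).im := rfl
      have h3 : N ∣ (k ^ 3).re * (k ^ 3).re := by
        have h4 : (k ^ 3).re * (k ^ 3).re = N ^ 3 - (k ^ 3).im * ((k ^ 3).re - (k ^ 3).im) := by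
          rw [← h1, h2]
          ring
        rw [h4]
        exact dvd_sub (dvd_pow_self _ (by norm_num)) (h.mul_right _)
      have h4 : N ∣ (k ^ 3).re := by
        rcases hNP.dvd_or_dvd h3 with h5 | h5 <;> exact h5
      obtain ⟨a, ha⟩ := h4
      obtain ⟨b, hb⟩ := h
      have h5 : star k ∣ k ^ 3 := by
        have h6 : k ^ 3 = (N : OO) * ⟨a, b⟩ := by
          ext
          · rw [ha]
            simp
          · rw [hb]
            simp
        rw [h6, ← hkk]
        exact Dvd.intro_left (k * ⟨a, b⟩) (by ring)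
      have h6 : IsUnit (star k) := by
        have h7 : IsCoprime (star k) (k ^ 3) := hck.symm.pow_right
        exact h7.isUnit_of_dvd' dvd_rfl h5
      have h7 : IsUnit N := by
        have h8 := QuadraticAlgebra.isUnit_iff_norm_isUnit.1 h6
        rwa [QuadraticAlgebra.norm_star] at h8
      exact hNP.not_isUnit h7
    have hcY : IsCoprime (N ^ 3) (k ^ 3).im := ((Prime.coprime_iff_not_dvd hNP).2 hY).pow_left
    obtain ⟨m, t, hmt⟩ := hcY
    refine ⟨x.re - x.im * t * (k ^ 3).re, ?_⟩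
    have e1 : k ^ 3 = ((k ^ 3).re : OO) + ((k ^ 3).im : OO) * ph := by
      unfold ph
      ext
      · simp
      · simp
    have e2 : x = (x.re : OO) + (x.im : OO) * ph := by
      unfold ph
      ext
      · simp
      · simp
    have e3 : (m : OO) * (N : OO) ^ 3 + (t : OO) * ((k ^ 3).im : OO) = 1 := by exact_mod_cast congrArg (Int.cast : ℤ → OO) hmt
    refine ⟨(x.im : OO) * ((t : OO) + (m : OO) * star k ^ 3 * ph), ?_⟩
    have e4 : (N : OO) ^ 3 = k ^ 3 * star k ^ 3 := by rw [← hkk, mul_pow]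
    rw [e4] at e3
    push_cast
    generalize hX : ((k ^ 3).re : OO) = X at e1 ⊢
    generalize hY : ((k ^ 3).im : OO) = Y at e1 e3
    nth_rewrite 1 [e2]
    linear_combination (-(x.im : OO) * ph) * e3 - (x.im : OO) * (t : OO) * e1

end Pool.Agent.RF
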