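import Pool.Agent.helper60.RF.SpecB

set_option autoImplicit false

/-!
# RF, block B: row VV5, divisibility and fifth powers from valuations
-/

namespace Pool.Agent.RF

open NumberField

open Classical in
theorem VV5_count {F : Type} [Field F] [NumberField F] (x y : 𝓞 F)
    (h : ∀ P : Ideal (𝓞 F), P.IsPrime → P ≠ ⊥ → vv P x ≤ vv P y) :
    UniqueFactorizationMonoid.normalizedFactors (Ideal.span {x}) ≤ UniqueFactorizationMonoid.normalizedFactors (Ideal.span {y}) := by
  rw [Multiset.le_iff_count]
  intro P
  by_cases hP : P ∈ UniqueFactorizationMonoid.normalizedFactors (Ideal.span {x})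
  · have h1 : Prime P := UniqueFactorizationMonoid.prime_of_normalized_factor P hP
    exact h P (Ideal.isPrime_of_prime h1) h1.ne_zero
  · rw [Multiset.count_eq_zero_of_notMem hP]
    exact Nat.zero_le _

theorem VV5 : VV5_stmt := by
  classical
  intro F _ _
  refine ⟨fun x y hx hy h => ?_, fun x hx h => ?_⟩
  · have h1 := VV5_count x y h
    have hx' : (Ideal.span {x} : Ideal (𝓞 F)) ≠ 0 := by
      rw [Ne, Ideal.zero_eq_bot, Ideal.span_singleton_eq_bot]
      exact hx
    have hy' : (Ideal.span {y} : Ideal (𝓞 F)) ≠ 0 := by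
      rw [Ne, Ideal.zero_eq_bot, Ideal.span_singleton_eq_bot]
      exact hy
    have h2 := (UniqueFactorizationMonoid.dvd_iff_normalizedFactors_le_normalizedFactors hx' hy').2 h1
    rw [Ideal.dvd_iff_le, Ideal.span_singleton_le_span_singleton] at h2
    exact h2
  · have hx' : (Ideal.span {x} : Ideal (𝓞 F)) ≠ 0 := by
      rw [Ne, Ideal.zero_eq_bot, Ideal.span_singleton_eq_bot]
      exact hx
    refine ⟨∏ P ∈ (UniqueFactorizationMonoid.normalizedFactors (Ideal.span {x})).toFinset,
      P ^ ((UniqueFactorizationMonoid.normalizedFactors (Ideal.span {x})).count P / 5), ?_⟩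
    have h1 : (UniqueFactorizationMonoid.normalizedFactors (Ideal.span {x} : Ideal (𝓞 F))).prod = Ideal.span {x} :=
      associated_iff_eq.mp (UniqueFactorizationMonoid.prod_normalizedFactors hx')
    rw [← Finset.prod_pow]
    nth_rewrite 1 [← h1]
    rw [Finset.prod_multiset_count]
    refine Finset.prod_congr rfl fun P hP => ?_
    rw [← pow_mul]
    congr 1
    have h2 : Prime P := UniqueFactorizationMonoid.prime_of_normalized_factor P (Multiset.mem_toFinset.1 hP)
    have h3 := h P (Ideal.isPrime_of_prime h2) h2.ne_zero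
    exact (Nat.div_mul_cancel h3).symm

end Pool.Agent.RF
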